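import Pool.Agent.Lib.MP_4492e9_an.Low

open MeasureTheory Pool.Agent.Lib.MP_4492e9_an
open scoped ContDiff

/-- A smooth diffeomorphism of the 2-torus whose SRB measure, measure of maximal entropy and
ergodic measure of maximal dimension are unique and coincide, and which is not even topologically
conjugate to a linear automorphism. -/
theorem Pool.Agent.Results.MP_4492e9_an.NotRigid.result :
    ∃ (f : T2 ≃ T2) (F G : ℝ × ℝ → ℝ × ℝ) (μ : Measure T2) (_ : IsProbabilityMeasure μ),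
      ContDiff ℝ ∞ F ∧ ContDiff ℝ ∞ G ∧
      (∀ z, proj (F z) = f (proj z)) ∧ (∀ z, proj (G z) = f.symm (proj z)) ∧
      Ergodic f μ ∧
      (∀ᵐ x ∂μ, ∃ a b : ℝ, 0 < a ∧ b < 0 ∧ IsExponent F x a ∧ IsExponent F x b) ∧
      (∀ ξ, Subord f.symm μ ξ → AbsCont f.symm μ ξ) ∧
      (∀ Z, μ Z ≠ 0 → measDim μ ≤ dimH Z) ∧
      (∀ (η : Measure T2) (_ : IsProbabilityMeasure η), MeasurePreserving f η η →
        (IsSRB F f.symm η ↔ η = μ) ∧
        (ksEntropy f η = Dynamics.coverEntropy f Set.univ ↔ η = μ) ∧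
        measDim η ≤ measDim μ ∧
        (Ergodic f η → measDim η = measDim μ → η = μ) ∧
        (η ≠ μ → ∃ Z, MeasurableSet Z ∧ η Z ≠ 0 ∧ dimH Z < measDim μ)) ∧
      ¬ ∃ (A : Matrix.GeneralLinearGroup (Fin 2) ℤ) (h : Homeomorph T2 T2), ∀ p, h (f p) =
        (A 0 0 • (h p).1 + A 0 1 • (h p).2, A 1 0 • (h p).1 + A 1 1 • (h p).2) := by
  refine ⟨fE, FX, GX, nu, inferInstance, FX_smooth, GX_smooth, proj_FX, proj_GX, nu_ergodic, ?_,
    fun ξ => absCont_nu, fun Z hZ => measDim_nu.le.trans (low_nu hZ),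
    fun η _ hη => ⟨⟨srb_unique hη, ?_⟩, mme_iff hη, ?_, fun he hd => ?_,
      fun hne => measDim_nu ▸ low_lt hη hne⟩, not_conj⟩
  · filter_upwards [nu_notDT] with x hx
    exact ⟨_, _, la_pos, neg_pos.1 lb_pos, exp_pos hx, exp_neg hx⟩
  · rintro rfl
    exact srb_nu
  · exact (measDim_le_dd hη).trans dd_le_measDim
  · by_contra hne
    exact ((measDim_lt_dd he hne).trans_le dd_le_measDim).ne hd
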